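import Pool.Agent.PFS.Stmts

/-!
PFS squad, row CHI: linear algebra.
-/

set_option autoImplicit false

namespace Pool.Agent.PFS.H81

open Pool.Agent.PFS

theorem chi : ChiStmt := by
  classical
  intro K X hX
  obtain ⟨b, hbX, hspan, hli⟩ := exists_linearIndependent ℝ X
  have hfin : b.Finite := hli.setFinite
  have : Fintype b := hfin.fintype
  have hcard : K ≤ Fintype.card b := by
    by_contra hlt
    push Not at hlt
    have h1 : Module.finrank ℝ (Submodule.span ℝ X) < K := by
      rw [← hspan, finrank_span_set_eq_card hli, Set.toFinset_card]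
      exact hlt
    set S : Submodule ℝ (Fin (K + 1) → ℝ) :=
      Submodule.span ℝ X ⊔ Submodule.span ℝ {(fun _ => 1 : Fin (K + 1) → ℝ)} with hS
    have h2 : Module.finrank ℝ S < K + 1 := by
      have h3 := Submodule.finrank_add_le_finrank_add_finrank (Submodule.span ℝ X)
        (Submodule.span ℝ {(fun _ => 1 : Fin (K + 1) → ℝ)})
      have h4 : Module.finrank ℝ (Submodule.span ℝ {(fun _ => 1 : Fin (K + 1) → ℝ)}) ≤ 1 := by
        refine (finrank_span_le_card _).trans ?_
        simp
      have h5 : Module.finrank ℝ S ≤ Module.finrank ℝ (Submodule.span ℝ X) +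
        Module.finrank ℝ (Submodule.span ℝ {(fun _ => 1 : Fin (K + 1) → ℝ)}) := h3
      omega
    have h3 : S < ⊤ := by
      rw [lt_top_iff_ne_top]
      intro h0
      rw [h0, finrank_top, Module.finrank_fin_fun] at h2
      exact lt_irrefl _ h2
    obtain ⟨f, hf0, hf⟩ := Submodule.exists_le_ker_of_lt_top S h3
    have hfx : ∀ x : Fin (K + 1) → ℝ, f x = ∑ i, f (Pi.single i 1) * x i := by
      intro x
      have e : x = ∑ i, x i • (Pi.single i (1:ℝ) : Fin (K + 1) → ℝ) := by
        funext j
        rw [Finset.sum_apply]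
        simp [Pi.single_apply]
      conv_lhs => rw [e, map_sum]
      refine Finset.sum_congr rfl fun i _ => ?_
      rw [map_smul, smul_eq_mul, mul_comm]
    have h6 : (fun i => f (Pi.single i 1)) ≠ (0 : Fin (K + 1) → ℝ) := by
      intro h0
      apply hf0
      ext i
      have := congrFun h0 i
      simpa using this
    have h7 : ∑ i, f (Pi.single i 1) = 0 := by
      have h8 : (fun _ => 1 : Fin (K + 1) → ℝ) ∈ S :=
        Submodule.mem_sup_right (Submodule.mem_span_singleton_self _)
      have h9 := hf h8
      rw [LinearMap.mem_ker, hfx] at h9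
      simpa using h9
    obtain ⟨χ, hχ, hne⟩ := hX _ h6 h7
    apply hne
    rw [← hfx χ]
    exact hf (Submodule.mem_sup_left (Submodule.subset_span hχ))
  have hK : Fintype.card (Fin K) ≤ Fintype.card b := by
    rw [Fintype.card_fin]
    exact hcard
  obtain ⟨e⟩ := Function.Embedding.nonempty_of_card_le hK
  exact ⟨fun a => (e a : Fin (K + 1) → ℝ), fun a => hbX (e a).2, hli.comp e e.injective⟩

end Pool.Agent.PFS.H81
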