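import Pool.Agent.PFS.Stmts

/-!
PFS squad, row FLM: faces of limit points are in the limit set.
-/

set_option autoImplicit false

open Matrix Filter Topology

namespace Pool.Agent.PFS.H81

open Pool.Agent.PFS

variable {n : ℕ} {C : Set (V n)} {Γ : Subgroup (GL (Fin n) ℝ)}

theorem tendsto_add_small (y c : V n) :
    Tendsto (fun m : ℕ => y + (1 / ((m : ℝ) + 1)) • c) atTop (𝓝 y) := by
  have ht : Tendsto (fun m : ℕ => y + (1 / ((m : ℝ) + 1)) • c) atTop (𝓝 (y + (0 : ℝ) • c)) :=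
    tendsto_const_nhds.add (tendsto_one_div_add_atTop_nhds_zero_nat.smul_const c)
  rwa [zero_smul, add_zero] at ht

theorem step1 (lim0 : Lim0Stmt) (zom : ZomStmt) (h : CC C Γ) {x y : V n} (hx : x ∈ LamC C Γ)
    (hy : y ∈ closure C) (hy0 : y ≠ 0) (hxy : x - y ∈ closure C) {ε : ℝ} (hε : 0 < ε)
    (hε1 : ε ≤ 1) (hyx : y - ε • x ∈ closure C) : y ∈ LamC C Γ := by
  have H := h.hul
  have hP := h.toPCone
  obtain ⟨c, hcC, hcH⟩ := h.core
  set hm : ℕ → V n := fun m => x + (1 / ((m : ℝ) + 1)) • c with hhm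
  set ym : ℕ → V n := fun m => y + (1 / ((m : ℝ) + 1)) • c with hym
  have hmC : ∀ m, hm m ∈ C := fun m =>
    hP.cl_add' (H.lamCl x hx) (hP.smul c hcC _ (by positivity))
  have hmH : ∀ m, hm m ∈ Hull C Γ := fun m =>
    H.add x (H.lamHull x hx) _ (H.smul c hcH _ (by positivity))
  have hyt : Tendsto ym atTop (𝓝 y) := tendsto_add_small y c
  obtain ⟨φ, g, s, k, hφ, hg, hs, hk, hlim⟩ := zom n C Γ h hm hmC hmH
  obtain ⟨B, hB, hnorm⟩ := hP.normal
  have hymC : ∀ m, ym m ∈ closure C := fun m =>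
    hP.cl_add hy (subset_closure (hP.smul c hcC _ (by positivity)))
  have hbd : ∀ m, ‖s m • act (g m) (ym (φ m))‖ ≤ B * ‖s m • act (g m) (hm (φ m))‖ := by
    intro m
    refine hnorm _ _ ((h.sact_cl_iff (hg m) (hs m)).2 (hymC _)) ?_
    rw [← smul_sub, ← CC.act_sub, h.sact_cl_iff (hg m) (hs m)]
    have e : hm (φ m) - ym (φ m) = x - y := by
      rw [hhm, hym]
      simp only
      abel
    rw [e]
    exact hxy
  obtain ⟨R', hR'⟩ := (Metric.isBounded_range_of_tendsto _ hlim).exists_norm_le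
  have hbd2 : ∀ m, s m • act (g m) (ym (φ m)) ∈ Metric.closedBall (0 : V n) (B * R') := by
    intro m
    rw [mem_closedBall_zero_iff]
    exact (hbd m).trans (mul_le_mul_of_nonneg_left (hR' _ ⟨m, rfl⟩) hB.le)
  obtain ⟨q, -, ψ, hψ, hq⟩ := tendsto_subseq_of_bounded
    (Metric.isBounded_closedBall (x := (0 : V n)) (r := B * R')) hbd2
  have hlim2 : Tendsto (fun m => s (ψ m) • act (g (ψ m)) (hm (φ (ψ m)))) atTop (𝓝 k) :=
    hlim.comp hψ.tendsto_atTop
  have hq2 : Tendsto (fun m => s (ψ m) • act (g (ψ m)) (ym (φ (ψ m)))) atTop (𝓝 q) := hq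
  have hqk : q - ε • k ∈ closure C := by
    have ht : Tendsto (fun m => s (ψ m) • act (g (ψ m)) (ym (φ (ψ m))) -
        ε • (s (ψ m) • act (g (ψ m)) (hm (φ (ψ m))))) atTop (𝓝 (q - ε • k)) :=
      hq2.sub (hlim2.const_smul ε)
    refine isClosed_closure.mem_of_tendsto ht (Eventually.of_forall fun m => ?_)
    have e : s (ψ m) • act (g (ψ m)) (ym (φ (ψ m))) -
        ε • (s (ψ m) • act (g (ψ m)) (hm (φ (ψ m)))) =
        s (ψ m) • act (g (ψ m)) (ym (φ (ψ m)) - ε • hm (φ (ψ m))) := by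
      rw [CC.act_sub, CC.act_smul, smul_sub, smul_comm ε]
    rw [e, h.sact_cl_iff (hg _) (hs _)]
    have e2 : ym (φ (ψ m)) - ε • hm (φ (ψ m)) =
        (y - ε • x) + ((1 - ε) * (1 / (((φ (ψ m) : ℕ) : ℝ) + 1))) • c := by
      rw [hhm, hym]
      simp only
      rw [mul_smul, sub_smul, one_smul, smul_add]
      abel
    rw [e2]
    refine hP.cl_add hyx (hP.cl_smul (subset_closure hcC) ?_)
    have : 0 ≤ 1 - ε := by linarith
    positivity
  have hqC : q ∈ C := hP.mem_of_le (hP.smul k hk ε hε) hqk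
  have hyC : y ∉ C := fun hyC => H.lamNot x hx (hP.mem_of_le hyC hxy)
  exact lim0 n C Γ h (fun m => g (ψ m)) (fun m => s (ψ m)) (fun m => ym (φ (ψ m))) q y
    (fun m => hg _) (fun m => hs _) hqC hq2
    (hyt.comp (hφ.tendsto_atTop.comp hψ.tendsto_atTop)) hy hyC hy0

theorem flm (lim0 : Lim0Stmt) (zom : ZomStmt) (clo : CloStmt) : FlmStmt := by
  intro n C Γ h x hx y hy hy0 hxy
  have H := h.hul
  have hP := h.toPCone
  have hxcl := H.lamCl x hx
  have hyC : y ∉ C := fun hyC => H.lamNot x hx (hP.mem_of_le hyC hxy)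
  have hz : ∀ m : ℕ, y + (1 / ((m : ℝ) + 1)) • x ∈ Hull C Γ := by
    intro m
    set δ : ℝ := 1 / ((m : ℝ) + 1) with hδ
    have hδ0 : 0 < δ := by positivity
    have h1δ : 0 < 1 + δ := by linarith
    have hi : 0 < (1 + δ)⁻¹ := inv_pos.2 h1δ
    have hw : (1 + δ)⁻¹ • (y + δ • x) ∈ LamC C Γ := by
      refine step1 lim0 zom h hx (hP.cl_smul (hP.cl_add hy (hP.cl_smul hxcl hδ0.le)) hi.le) ?_ ?_
        (ε := δ * (1 + δ)⁻¹) (by positivity) ?_ ?_
      · intro h0
        have h1 : y + δ • x = 0 := (smul_eq_zero.1 h0).resolve_left hi.ne'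
        apply hy0
        refine hP.salient y hy ?_
        have h2 : -y = δ • x := (eq_neg_of_add_eq_zero_right h1).symm
        rw [h2]
        exact hP.cl_smul hxcl hδ0.le
      · have e : x - (1 + δ)⁻¹ • (y + δ • x) = (1 + δ)⁻¹ • (x - y) := by
          have e1 : x = (1 + δ)⁻¹ • ((1 + δ) • x) := by
            rw [smul_smul, inv_mul_cancel₀ h1δ.ne', one_smul]
          nth_rw 1 [e1]
          rw [← smul_sub, add_smul, one_smul]
          congr 1
          abel
        rw [e]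
        exact hP.cl_smul hxy hi.le
      · rw [← div_eq_mul_inv, div_le_one h1δ]
        linarith
      · have e : (1 + δ)⁻¹ • (y + δ • x) - (δ * (1 + δ)⁻¹) • x = (1 + δ)⁻¹ • y := by
          rw [smul_add, smul_smul, mul_comm δ]
          abel
        rw [e]
        exact hP.cl_smul hy hi.le
    have h2 := H.lamSmul _ hw (1 + δ) h1δ
    rw [smul_smul, mul_inv_cancel₀ h1δ.ne', one_smul] at h2
    exact H.lamHull _ h2
  exact clo n C Γ h (fun m : ℕ => y + (1 / ((m : ℝ) + 1)) • x) y hz (tendsto_add_small y x) hyC hy0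

end Pool.Agent.PFS.H81
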