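import Pool.Agent.PFS.StmtsH

/-!
PFS squad, row CMC: convergent sequences are comparable.
-/

set_option autoImplicit false

open Matrix Filter Topology

namespace Pool.Agent.PFS.H81

open Pool.Agent.PFS

theorem cmc : CmcStmt := by
  intro n C h p q p0 q0 hp0 hq0 hp hq
  obtain ⟨M₁, hM₁, h1⟩ := h.absorb hq0 p0
  obtain ⟨M₂, hM₂, h2⟩ := h.absorb hp0 q0
  have e1 : ∀ᶠ m in atTop, M₁ • q m - p m ∈ C :=
    ((hq.const_smul M₁).sub hp).eventually (h.isOpen.mem_nhds h1)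
  have e2 : ∀ᶠ m in atTop, M₂ • p m - q m ∈ C :=
    ((hp.const_smul M₂).sub hq).eventually (h.isOpen.mem_nhds h2)
  have e3 : ∀ᶠ m in atTop, q m ∈ C := hq.eventually (h.isOpen.mem_nhds hq0)
  refine ⟨max 1 (M₁ * M₂), le_max_left _ _, ?_⟩
  filter_upwards [e1, e2, e3] with m a1 a2 a3
  refine ⟨M₂, hM₂, subset_closure a2, ?_⟩
  have e : max 1 (M₁ * M₂) • q m - M₂ • p m =
      (max 1 (M₁ * M₂) - M₁ * M₂) • q m + M₂ • (M₁ • q m - p m) := by
    rw [sub_smul, smul_sub, smul_smul, mul_comm M₂ M₁]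
    abel
  rw [e]
  refine h.cl_add (h.cl_smul (subset_closure a3) ?_) (h.cl_smul (subset_closure a1) hM₂.le)
  exact sub_nonneg.2 (le_max_right _ _)

end Pool.Agent.PFS.H81
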